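import Mathlib

/-!
# A beam-splitter state of Fock-bounded pure states that is not extreme (MP_bdb089_mp)
-/

set_option autoImplicit false

namespace Pool.Agent.Results.MP_bdb089_mp.NotExtreme

open MeasureTheory Complex
open scoped InnerProductSpace ComplexConjugate Polynomial

/-- The Hilbert space `L²(ℝ)` of one bosonic mode. -/
abbrev H : Type := Lp ℂ 2 (volume : Measure ℝ)

/-- The bounded operators on `L²(ℝ)`. -/
abbrev Op : Type := H →L[ℂ] H

/-- The Hilbert bases of `L²(ℝ)`, indexed by `ι`. -/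
abbrev HB (ι : Type) : Type := HilbertBasis ι ℂ H

/-- The vector `ρ f`. -/
noncomputable def ev (ρ : Op) (f : H) : H := ρ f

/-- The vector with the index `i` of the Hilbert basis `b`. -/
noncomputable def bv {ι : Type} (b : HB ι) (i : ι) : H := b i

/-- The inner product of `L²(ℝ)`, linear in the second variable. -/
noncomputable def ip (f g : H) : ℂ := ⟪f, g⟫_ℂ

/-- The function given by an element of `L²(ℝ)`. -/
noncomputable def fn (f : H) : ℝ → ℂ := f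

/-- The convex combination `t ρ₁ + (1 - t) ρ₂`. -/
noncomputable def comb (t : ℝ) (ρ₁ ρ₂ : Op) : Op := (t : ℂ) • ρ₁ + ((1 - t : ℝ) : ℂ) • ρ₂

/-- The element of `L²(ℝ)` given by a square-integrable function (`0` for other functions). -/
noncomputable def toH (f : ℝ → ℂ) : H := by
  classical
  exact if h : MemLp f 2 (volume : Measure ℝ) then h.toLp f else 0

/-! ### Fock states -/

/-- The vacuum `π ^ (-1/4) exp (-x²/2)`. -/
noncomputable def vac (x : ℝ) : ℂ := (((√(√Real.pi))⁻¹ * Real.exp (-x ^ 2 / 2) : ℝ) : ℂ)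

/-- The creation operator `(x - d/dx) / √2`. -/
noncomputable def create (f : ℝ → ℂ) (x : ℝ) : ℂ := ((x : ℂ) * f x - deriv f x) / (√2 : ℝ)

/-- The Fock states, `|n + 1⟩ = (n + 1) ^ (-1/2) a† |n⟩`. -/
noncomputable def fock : ℕ → ℝ → ℂ
  | 0 => vac
  | n + 1 => fun x => create (fock n) x / (√((n : ℝ) + 1) : ℝ)

/-! ### Gaussian moments -/

/-- `y ^ k exp (-y² - 2 i p y)` -/
noncomputable def gk (p : ℝ) (k : ℕ) (y : ℝ) : ℂ :=
  (y : ℂ) ^ k * cexp (-(y : ℂ) ^ 2 - 2 * I * p * y)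

lemma gk_norm (p : ℝ) (k : ℕ) (y : ℝ) : ‖gk p k y‖ = |y| ^ k * Real.exp (-y ^ 2) := by
  rw [gk, norm_mul, norm_pow, Complex.norm_real, Real.norm_eq_abs, Complex.norm_exp]
  congr 2
  simp [← Complex.ofReal_pow]

lemma gk_continuous (p : ℝ) (k : ℕ) : Continuous (gk p k) := by
  unfold gk
  fun_prop

lemma gk_integrable (p : ℝ) (k : ℕ) : Integrable (gk p k) := by
  have h1 : Integrable fun x : ℝ => x ^ (k : ℝ) * Real.exp (-1 * x ^ 2) :=
    integrable_rpow_mul_exp_neg_mul_sq one_pos (by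
      have : (0 : ℝ) ≤ k := Nat.cast_nonneg k
      linarith)
  refine h1.norm.mono' (gk_continuous p k).aestronglyMeasurable (Filter.Eventually.of_forall ?_)
  intro y
  rw [gk_norm, norm_mul, Real.rpow_natCast, norm_pow, Real.norm_eq_abs, Real.norm_eq_abs,
    Real.abs_exp, neg_one_mul]

lemma gk_hasDeriv (p : ℝ) (k : ℕ) (y : ℝ) :
    HasDerivAt (gk p k) ((k : ℂ) * ((y : ℂ) ^ (k - 1) * cexp (-(y : ℂ) ^ 2 - 2 * I * p * y))
      - 2 * gk p (k + 1) y - 2 * I * p * gk p k y) y := by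
  have h1 : HasDerivAt (fun y : ℝ => (y : ℂ)) 1 y := Complex.ofRealCLM.hasDerivAt
  have h2 : HasDerivAt (fun y : ℝ => (y : ℂ) ^ k) ((k : ℂ) * (y : ℂ) ^ (k - 1) * 1) y := h1.pow k
  have h3 : HasDerivAt (fun y : ℝ => -(y : ℂ) ^ 2 - 2 * I * p * y) (-(2 * y) - 2 * I * p) y := by
    have h4 := ((h1.pow 2).neg).sub (h1.const_mul (2 * I * p))
    refine h4.congr_deriv ?_
    push_cast
    ring
  refine (h2.mul h3.cexp).congr_deriv ?_
  unfold gk
  ring

/-- the moments -/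
noncomputable def mom (p : ℝ) (k : ℕ) : ℂ := ∫ y, gk p k y

lemma mom_zero (p : ℝ) : mom p 0 = (√Real.pi * Real.exp (-p ^ 2) : ℝ) := by
  have h := integral_cexp_quadratic (b := -1) (by simp) (-2 * I * p) 0
  unfold mom gk
  have e1 : (fun y : ℝ => (y : ℂ) ^ 0 * cexp (-(y : ℂ) ^ 2 - 2 * I * p * y)) =
      fun y : ℝ => cexp (-1 * (y : ℂ) ^ 2 + -2 * I * p * y + 0) := by
    funext y
    rw [pow_zero, one_mul]
    congr 1
    ring
  rw [e1, h]
  have e2 : (0 : ℂ) - (-2 * I * p) ^ 2 / (4 * -1) = ((-p ^ 2 : ℝ) : ℂ) := by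
    push_cast
    have : I ^ 2 = -1 := I_sq
    linear_combination (p : ℂ) ^ 2 * this
  rw [e2, neg_neg, div_one, Complex.ofReal_mul, Complex.ofReal_exp]
  congr 1
  rw [Real.sqrt_eq_rpow, Complex.ofReal_cpow Real.pi_pos.le]
  norm_num

lemma mom_rec (p : ℝ) (k : ℕ) :
    (k : ℂ) * (∫ y : ℝ, (y : ℂ) ^ (k - 1) * cexp (-(y : ℂ) ^ 2 - 2 * I * p * y))
      - 2 * mom p (k + 1) - 2 * I * p * mom p k = 0 := by
  have h1 : Integrable fun y : ℝ => (k : ℂ) * ((y : ℂ) ^ (k - 1) *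
      cexp (-(y : ℂ) ^ 2 - 2 * I * p * y)) := (gk_integrable p (k - 1)).const_mul _
  have h2 : Integrable fun y : ℝ => 2 * gk p (k + 1) y := (gk_integrable p (k + 1)).const_mul _
  have h3 : Integrable fun y : ℝ => 2 * I * p * gk p k y := (gk_integrable p k).const_mul _
  have h := integral_eq_zero_of_hasDerivAt_of_integrable (gk_hasDeriv p k)
    ((h1.sub h2).sub h3) (gk_integrable p k)
  have h4 := (integral_sub (h1.sub h2) h3).symm.trans h
  have h5 := integral_sub h1 h2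
  rw [integral_const_mul] at h4
  rw [integral_const_mul, integral_const_mul] at h5
  have h6 := congrArg (fun z => z - 2 * I * p * ∫ y, gk p k y) h5
  exact h6.symm.trans h4

lemma mom_one (p : ℝ) : mom p 1 = -I * p * mom p 0 := by
  have h := mom_rec p 0
  rw [Nat.cast_zero, zero_mul, zero_add] at h
  linear_combination (-1 / 2 : ℂ) * h

lemma mom_succ_succ (p : ℝ) (k : ℕ) :
    mom p (k + 2) = ((k : ℂ) + 1) / 2 * mom p k - I * p * mom p (k + 1) := by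
  have h := mom_rec p (k + 1)
  rw [Nat.add_sub_cancel] at h
  have e : (∫ y : ℝ, (y : ℂ) ^ k * cexp (-(y : ℂ) ^ 2 - 2 * I * p * y)) = mom p k := rfl
  rw [e] at h
  push_cast at h
  linear_combination (-1 / 2 : ℂ) * h

/-- the normalised moments -/
noncomputable def m (p : ℝ) : ℕ → ℂ
  | 0 => 1
  | 1 => -I * p
  | k + 2 => ((k : ℂ) + 1) / 2 * m p k - I * p * m p (k + 1)

lemma mom_eq (p : ℝ) (k : ℕ) : mom p k = m p k * mom p 0 := by
  induction k using Nat.twoStepInduction with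
  | zero => rw [m, one_mul]
  | one => rw [m, mom_one]
  | more k h1 h2 => rw [mom_succ_succ, h1, h2, m]; ring

lemma integral_sum_gk (p : ℝ) (n : ℕ) (c : ℕ → ℂ) :
    ∫ y : ℝ, (∑ k ∈ Finset.range n, c k * (y : ℂ) ^ k) * cexp (-(y : ℂ) ^ 2 - 2 * I * p * y) =
      (∑ k ∈ Finset.range n, c k * m p k) * mom p 0 := by
  have e1 : (fun y : ℝ => (∑ k ∈ Finset.range n, c k * (y : ℂ) ^ k) *
      cexp (-(y : ℂ) ^ 2 - 2 * I * p * y)) = fun y => ∑ k ∈ Finset.range n, c k * gk p k y := by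
    funext y
    rw [Finset.sum_mul]
    refine Finset.sum_congr rfl fun k _ => ?_
    rw [gk]; ring
  rw [e1, integral_finsetSum _ fun k _ => (gk_integrable p k).const_mul _, Finset.sum_mul]
  refine Finset.sum_congr rfl fun k _ => ?_
  rw [integral_const_mul]
  show c k * mom p k = _
  rw [mom_eq]
  ring

/-! ### Polynomials times the vacuum -/

lemma vac_mul_vac (s t : ℝ) :
    vac s * vac t = (((√Real.pi)⁻¹ * Real.exp (-(s ^ 2 + t ^ 2) / 2) : ℝ) : ℂ) := by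
  unfold vac
  rw [← Complex.ofReal_mul]
  congr 1
  have h1 : (√(√Real.pi))⁻¹ * (√(√Real.pi))⁻¹ = (√Real.pi)⁻¹ := by
    rw [← mul_inv, Real.mul_self_sqrt (Real.sqrt_nonneg _)]
  have h2 : Real.exp (-s ^ 2 / 2) * Real.exp (-t ^ 2 / 2) = Real.exp (-(s ^ 2 + t ^ 2) / 2) := by
    rw [← Real.exp_add]
    congr 1
    ring
  rw [← h1, ← h2]
  ring

lemma vac_conj (x : ℝ) : conj (vac x) = vac x := Complex.conj_ofReal _

lemma vac_continuous : Continuous vac := by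
  unfold vac
  fun_prop

/-- polynomial times the vacuum -/
noncomputable def pv (P : ℂ[X]) (x : ℝ) : ℂ := P.eval (x : ℂ) * vac x

lemma pv_continuous (P : ℂ[X]) : Continuous (pv P) :=
  (P.continuous.comp Complex.continuous_ofReal).mul vac_continuous

lemma integrable_poly (P : ℂ[X]) (p : ℝ) :
    Integrable fun y : ℝ => P.eval (y : ℂ) * cexp (-(y : ℂ) ^ 2 - 2 * I * p * y) := by
  have e1 : (fun y : ℝ => P.eval (y : ℂ) * cexp (-(y : ℂ) ^ 2 - 2 * I * p * y)) =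
      fun y => ∑ k ∈ Finset.range (P.natDegree + 1), P.coeff k * gk p k y := by
    funext y
    rw [Polynomial.eval_eq_sum_range, Finset.sum_mul]
    refine Finset.sum_congr rfl fun k _ => ?_
    rw [gk]; ring
  rw [e1]
  exact integrable_finsetSum _ fun k _ => (gk_integrable p k).const_mul _

lemma memLp_pv (P : ℂ[X]) : MemLp (pv P) 2 (volume : Measure ℝ) := by
  rw [memLp_two_iff_integrable_sq_norm (pv_continuous P).aestronglyMeasurable]
  have h := ((integrable_poly (P * P) 0).norm).const_mul (√Real.pi)⁻¹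
  refine h.congr (Filter.Eventually.of_forall fun x => ?_)
  show (√Real.pi)⁻¹ * ‖(P * P).eval (x : ℂ) * cexp (-(x : ℂ) ^ 2 - 2 * I * (0 : ℝ) * x)‖ =
    ‖pv P x‖ ^ 2
  have e1 : ‖pv P x‖ ^ 2 = ‖P.eval (x : ℂ) * P.eval (x : ℂ) * (vac x * vac x)‖ := by
    rw [pow_two, ← norm_mul, pv]
    congr 1
    ring
  have e2 : vac x * vac x =
      ((√Real.pi)⁻¹ : ℝ) * cexp (-(x : ℂ) ^ 2 - 2 * I * (0 : ℝ) * x) := by
    rw [vac_mul_vac, Complex.ofReal_mul, Complex.ofReal_exp]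
    congr 2
    push_cast
    ring
  rw [e1, e2, Polynomial.eval_mul]
  simp only [norm_mul]
  rw [Complex.norm_real, Real.norm_of_nonneg (by positivity : (0 : ℝ) ≤ (√Real.pi)⁻¹)]
  ring

/-- polynomial times the vacuum, as an element of `L²(ℝ)` -/
noncomputable def Φ : ℂ[X] →ₗ[ℂ] H where
  toFun P := (memLp_pv P).toLp (pv P)
  map_add' P Q := by
    rw [← MemLp.toLp_add]
    congr 1
    funext x
    simp only [pv, Polynomial.eval_add, Pi.add_apply]
    ring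
  map_smul' c P := by
    rw [RingHom.id_apply, ← MemLp.toLp_const_smul]
    congr 1
    funext x
    simp only [pv, Polynomial.eval_smul, Pi.smul_apply, smul_eq_mul]
    ring

lemma Φ_coe (P : ℂ[X]) : (Φ P : ℝ → ℂ) =ᵐ[volume] pv P := MemLp.coeFn_toLp (memLp_pv P)

lemma toH_pv (P : ℂ[X]) : toH (pv P) = Φ P := by
  unfold toH
  rw [dif_pos (memLp_pv P)]
  rfl

lemma inner_Φ (P Q : ℂ[X]) : ⟪Φ P, Φ Q⟫_ℂ = ∫ x, pv Q x * conj (pv P x) := by
  rw [L2.inner_def]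
  refine integral_congr_ae ?_
  filter_upwards [Φ_coe P, Φ_coe Q] with x h1 h2
  rw [h1, h2, RCLike.inner_apply]

/-! ### The displaced parity operators and the Wigner transform -/

lemma memLp_R (x p : ℝ) (f : H) :
    MemLp (fun z : ℝ => cexp (2 * I * p * (z - x)) * (f : ℝ → ℂ) (2 * x - z)) 2
      (volume : Measure ℝ) := by
  have h1 : MemLp ((f : ℝ → ℂ) ∘ fun z : ℝ => 2 * x - z) 2 volume :=
    (Lp.memLp f).comp_measurePreserving (Measure.measurePreserving_sub_left volume (2 * x))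
  refine h1.congr_norm ?_ (Filter.Eventually.of_forall fun z => ?_)
  · refine AEStronglyMeasurable.mul ?_ h1.1
    exact Continuous.aestronglyMeasurable (by fun_prop)
  · show ‖(f : ℝ → ℂ) (2 * x - z)‖ = _
    rw [norm_mul, Complex.norm_exp]
    have : (2 * I * (p : ℂ) * ((z : ℂ) - x)).re = 0 := by
      simp [← Complex.ofReal_sub]
    rw [this, Real.exp_zero, one_mul]

/-- the displaced parity operator -/
noncomputable def R (x p : ℝ) : H →ₗ[ℂ] H where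
  toFun f := (memLp_R x p f).toLp _
  map_add' f g := by
    rw [← MemLp.toLp_add]
    apply Lp.ext
    refine (MemLp.coeFn_toLp _).trans ((?_ : _ =ᵐ[volume] _).trans (MemLp.coeFn_toLp _).symm)
    have h := (Measure.measurePreserving_sub_left volume (2 * x)).quasiMeasurePreserving.ae_eq_comp
      (Lp.coeFn_add f g)
    filter_upwards [h] with z hz
    simp only [Function.comp_apply, Pi.add_apply] at hz ⊢
    rw [hz]
    ring
  map_smul' c f := by
    rw [RingHom.id_apply, ← MemLp.toLp_const_smul]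
    apply Lp.ext
    refine (MemLp.coeFn_toLp _).trans ((?_ : _ =ᵐ[volume] _).trans (MemLp.coeFn_toLp _).symm)
    have h := (Measure.measurePreserving_sub_left volume (2 * x)).quasiMeasurePreserving.ae_eq_comp
      (Lp.coeFn_smul c f)
    filter_upwards [h] with z hz
    simp only [Function.comp_apply, Pi.smul_apply, smul_eq_mul] at hz ⊢
    rw [hz]
    ring

/-- the integral in the definition of the Wigner function, for the operator `|f⟩⟨g|` -/
noncomputable def wig (x p : ℝ) (f g : ℝ → ℂ) : ℂ :=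
  ∫ y : ℝ, f (x + y) * conj (g (x - y)) * cexp (-2 * I * p * y)

lemma wig_eq_inner (x p : ℝ) (f g : H) : wig x p f g = ⟪g, R x p f⟫_ℂ := by
  rw [L2.inner_def]
  have e1 : (fun z : ℝ => ⟪(g : ℝ → ℂ) z, (R x p f : ℝ → ℂ) z⟫_ℂ) =ᵐ[volume]
      fun z => cexp (2 * I * p * (z - x)) * (f : ℝ → ℂ) (2 * x - z) * conj ((g : ℝ → ℂ) z) := by
    filter_upwards [MemLp.coeFn_toLp (memLp_R x p f)] with z hz
    show ⟪(g : ℝ → ℂ) z, ((memLp_R x p f).toLp _ : ℝ → ℂ) z⟫_ℂ = _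
    rw [hz, RCLike.inner_apply]
  rw [integral_congr_ae e1, ← integral_sub_left_eq_self _ volume x]
  unfold wig
  congr 1
  funext y
  have e2 : 2 * x - (x - y) = x + y := by ring
  have e3 : 2 * I * (p : ℂ) * (((x - y : ℝ) : ℂ) - x) = -2 * I * p * y := by
    push_cast; ring
  rw [e2, e3]
  ring

lemma wig_Φ (x p : ℝ) (P Q : ℂ[X]) : wig x p (Φ P) (Φ Q) = wig x p (pv P) (pv Q) := by
  unfold wig
  refine integral_congr_ae ?_
  have h1 := (measurePreserving_add_left volume x).quasiMeasurePreserving.ae_eq_comp (Φ_coe P)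
  have h2 := (Measure.measurePreserving_sub_left volume x).quasiMeasurePreserving.ae_eq_comp
    (Φ_coe Q)
  filter_upwards [h1, h2] with y h3 h4
  simp only [Function.comp_apply] at h3 h4
  rw [h3, h4]

/-! ### States and Wigner functions -/

/-- A state: a positive operator of trace one (the trace computed in every Hilbert basis). -/
def IsState (ρ : Op) : Prop :=
  ρ.IsPositive ∧ ∀ (ι : Type) (b : HB ι), HasSum (fun i => ip (bv b i) (ev ρ (bv b i))) 1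

/-- `W` is the Wigner function of `ρ`: for every Hilbert basis `b` one has
`ρ = ∑ᵢ |ρ bᵢ⟩⟨bᵢ|`, so `⟨x + y|ρ|x - y⟩ = ∑ᵢ (ρ bᵢ)(x + y) conj (bᵢ (x - y))`, and
`W(x, p) = (1/π) ∑ᵢ ∫ (ρ bᵢ)(x + y) conj (bᵢ (x - y)) exp (-2 i p y) dy`. -/
def IsWigner (ρ : Op) (W : ℝ → ℝ → ℝ) : Prop :=
  ∀ (ι : Type) (b : HB ι) (x p : ℝ),
    HasSum (fun i => ((1 / Real.pi : ℝ) : ℂ) * ∫ y : ℝ,
      fn (ev ρ (bv b i)) (x + y) * conj (fn (bv b i) (x - y)) * cexp (-2 * I * p * y))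
      (W x p : ℂ)

/-- The convex set `𝒟₊` of the states with a nonnegative Wigner function. -/
def Dplus : Set Op := {ρ | IsState ρ ∧ ∃ W, IsWigner ρ W ∧ ∀ x p, 0 ≤ W x p}

/-- finite rank operators given by a matrix and vectors -/
noncomputable def op {n : ℕ} (U : Fin n → H) (M : Fin n → Fin n → ℝ) : H →L[ℂ] H :=
  ∑ a, ∑ b, (M a b : ℂ) • InnerProductSpace.rankOne ℂ (U a) (U b)

lemma op_apply {n : ℕ} (U : Fin n → H) (M : Fin n → Fin n → ℝ) (f : H) :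
    op U M f = ∑ a, ∑ b, ((M a b : ℂ) * ⟪U b, f⟫_ℂ) • U a := by
  simp only [op, sum_apply, smul_apply, InnerProductSpace.rankOne_apply, smul_smul]

lemma inner_op {n : ℕ} (U : Fin n → H) (M : Fin n → Fin n → ℝ) (f g : H) :
    ⟪g, op U M f⟫_ℂ = ∑ a, ∑ b, (M a b : ℂ) * (⟪U b, f⟫_ℂ * ⟪g, U a⟫_ℂ) := by
  rw [op_apply, inner_sum]
  refine Finset.sum_congr rfl fun a _ => ?_
  rw [inner_sum]
  refine Finset.sum_congr rfl fun b _ => ?_
  rw [inner_smul_right]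
  ring

lemma op_positive {n : ℕ} (U : Fin n → H) (M : Fin n → Fin n → ℝ) (hM : ∀ a b, M a b = M b a)
    (hQ : ∀ v : Fin n → ℝ, 0 ≤ ∑ a, ∑ b, M a b * (v a * v b)) : (op U M).IsPositive := by
  rw [ContinuousLinearMap.isPositive_iff_complex]
  intro f
  have key : ⟪op U M f, f⟫_ℂ =
      (((∑ a, ∑ b, M a b * ((⟪U a, f⟫_ℂ).re * (⟪U b, f⟫_ℂ).re)) +
        ∑ a, ∑ b, M a b * ((⟪U a, f⟫_ℂ).im * (⟪U b, f⟫_ℂ).im) : ℝ) : ℂ) := by
    have e0 : ⟪op U M f, f⟫_ℂ = conj ⟪f, op U M f⟫_ℂ := (inner_conj_symm _ _).symm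
    rw [e0, inner_op]
    have e1 : conj (∑ a, ∑ b, (M a b : ℂ) * (⟪U b, f⟫_ℂ * ⟪f, U a⟫_ℂ)) =
        ∑ a, ∑ b, (M a b : ℂ) * (conj ⟪U b, f⟫_ℂ * ⟪U a, f⟫_ℂ) := by
      rw [map_sum]
      refine Finset.sum_congr rfl fun a _ => ?_
      rw [map_sum]
      refine Finset.sum_congr rfl fun b _ => ?_
      rw [map_mul, map_mul, Complex.conj_ofReal, inner_conj_symm (U a) f]
    rw [e1]
    apply Complex.ext
    · rw [Complex.ofReal_re, Complex.re_sum, ← Finset.sum_add_distrib]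
      refine Finset.sum_congr rfl fun a _ => ?_
      rw [Complex.re_sum, ← Finset.sum_add_distrib]
      refine Finset.sum_congr rfl fun b _ => ?_
      simp only [Complex.mul_re, Complex.mul_im, Complex.conj_re, Complex.conj_im,
        Complex.ofReal_re, Complex.ofReal_im]
      ring
    · rw [Complex.ofReal_im, Complex.im_sum]
      have e2 : ∀ a b, ((M a b : ℂ) * (conj ⟪U b, f⟫_ℂ * ⟪U a, f⟫_ℂ)).im =
          M a b * ((⟪U b, f⟫_ℂ).re * (⟪U a, f⟫_ℂ).im) -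
            M a b * ((⟪U b, f⟫_ℂ).im * (⟪U a, f⟫_ℂ).re) := by
        intro a b
        simp only [Complex.mul_re, Complex.mul_im, Complex.conj_re, Complex.conj_im,
          Complex.ofReal_re, Complex.ofReal_im]
        ring
      simp only [Complex.im_sum, e2, Finset.sum_sub_distrib]
      rw [sub_eq_zero]
      conv_rhs => rw [Finset.sum_comm]
      refine Finset.sum_congr rfl fun a _ => Finset.sum_congr rfl fun b _ => ?_
      rw [hM a b]
      ring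
  have h0 : 0 ≤ ((∑ a, ∑ b, M a b * ((⟪U a, f⟫_ℂ).re * (⟪U b, f⟫_ℂ).re)) +
        ∑ a, ∑ b, M a b * ((⟪U a, f⟫_ℂ).im * (⟪U b, f⟫_ℂ).im) : ℝ) :=
    add_nonneg (hQ fun a => (⟪U a, f⟫_ℂ).re) (hQ fun a => (⟪U a, f⟫_ℂ).im)
  rw [key]
  exact ⟨by simp, by simpa using h0⟩

lemma op_trace {n : ℕ} (U : Fin n → H) (M : Fin n → Fin n → ℝ) {ι : Type}
    (b : HilbertBasis ι ℂ H) :
    HasSum (fun i => ⟪b i, op U M (b i)⟫_ℂ) (∑ c, ∑ d, (M c d : ℂ) * ⟪U d, U c⟫_ℂ) := by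
  simp only [inner_op]
  refine hasSum_sum fun c _ => hasSum_sum fun d _ => ?_
  exact (b.hasSum_inner_mul_inner (U d) (U c)).mul_left _

lemma op_wigner {n : ℕ} (U : Fin n → H) (M : Fin n → Fin n → ℝ) {ι : Type}
    (b : HilbertBasis ι ℂ H) (x p : ℝ) :
    HasSum (fun i => ((1 / Real.pi : ℝ) : ℂ) * ∫ y : ℝ,
      (op U M (b i) : ℝ → ℂ) (x + y) * conj ((b i : ℝ → ℂ) (x - y)) * cexp (-2 * I * p * y))
      (((1 / Real.pi : ℝ) : ℂ) * ∑ c, ∑ d, (M c d : ℂ) * wig x p (U c) (U d)) := by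
  refine HasSum.mul_left _ ?_
  have e1 : (fun i => ∫ y : ℝ, (op U M (b i) : ℝ → ℂ) (x + y) *
      conj ((b i : ℝ → ℂ) (x - y)) * cexp (-2 * I * p * y)) =
      fun i => ∑ c, ∑ d, (M c d : ℂ) * (⟪U d, b i⟫_ℂ * ⟪b i, R x p (U c)⟫_ℂ) := by
    funext i
    have e2 := wig_eq_inner x p (op U M (b i)) (b i)
    unfold wig at e2
    rw [e2, op_apply, map_sum, inner_sum]
    refine Finset.sum_congr rfl fun c _ => ?_
    rw [map_sum, inner_sum]
    refine Finset.sum_congr rfl fun d _ => ?_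
    rw [map_smul, inner_smul_right]
    ring
  rw [e1]
  refine hasSum_sum fun c _ => hasSum_sum fun d _ => ?_
  rw [wig_eq_inner]
  exact (b.hasSum_inner_mul_inner (U d) (R x p (U c))).mul_left _

/-! ### The explicit polynomials -/

/-- the coefficients of the polynomials `1`, `2x`, `2x² - 1`, `4x⁴ - 12x² + 3` -/
noncomputable def cf : Fin 4 → Fin 5 → ℝ :=
  ![![1, 0, 0, 0, 0], ![0, 2, 0, 0, 0], ![-1, 0, 2, 0, 0], ![3, 0, -12, 0, 4]]

/-- the polynomial with given real coefficients -/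
noncomputable def poly (A : Fin 5 → ℝ) : ℂ[X] :=
  ∑ i, Polynomial.C (A i : ℂ) * Polynomial.X ^ (i : ℕ)

lemma poly_eval (A : Fin 5 → ℝ) (x : ℂ) : (poly A).eval x = ∑ i, (A i : ℂ) * x ^ (i : ℕ) := by
  simp [poly, Polynomial.eval_finsetSum]

lemma poly_eval_conj (A : Fin 5 → ℝ) (x : ℝ) :
    conj ((poly A).eval (x : ℂ)) = (poly A).eval (x : ℂ) := by
  rw [poly_eval, map_sum]
  refine Finset.sum_congr rfl fun i _ => ?_
  rw [map_mul, map_pow, Complex.conj_ofReal, Complex.conj_ofReal]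

/-- the four vectors -/
noncomputable def U (a : Fin 4) : H := Φ (poly (cf a))

/-- real moments -/
noncomputable def mr : ℕ → ℝ
  | 0 => 1
  | 1 => 0
  | k + 2 => ((k : ℝ) + 1) / 2 * mr k

lemma m_zero (k : ℕ) : m 0 k = (mr k : ℝ) := by
  induction k using Nat.twoStepInduction with
  | zero => simp [m, mr]
  | one => simp [m, mr]
  | more k h1 h2 => rw [m, mr, h1, h2]; push_cast; ring

lemma vac_sq (x : ℝ) :
    vac x * vac x = ((√Real.pi)⁻¹ : ℝ) * cexp (-(x : ℂ) ^ 2 - 2 * I * (0 : ℝ) * x) := by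
  rw [vac_mul_vac, Complex.ofReal_mul, Complex.ofReal_exp]
  congr 2
  push_cast
  ring

lemma sqrtpi_mul : (((√Real.pi)⁻¹ : ℝ) : ℂ) * ((√Real.pi : ℝ) : ℂ) = 1 := by
  rw [← Complex.ofReal_mul, inv_mul_cancel₀ (Real.sqrt_pos.mpr Real.pi_pos).ne', Complex.ofReal_one]

lemma sqrtpi_mul' : (((√Real.pi : ℝ) : ℂ))⁻¹ * ((√Real.pi : ℝ) : ℂ) = 1 := by
  rw [← Complex.ofReal_inv, sqrtpi_mul]

lemma gauss_term (A B : Fin 5 → ℝ) (x : ℝ) :
    (poly A).eval (x : ℂ) * (poly B).eval (x : ℂ) * (vac x * vac x) =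
      ∑ i : Fin 5, ∑ j : Fin 5, ((A i * B j * (√Real.pi)⁻¹ : ℝ) : ℂ) * gk 0 (i + j) x := by
  rw [poly_eval, poly_eval, Finset.sum_mul_sum, Finset.sum_mul]
  refine Finset.sum_congr rfl fun i _ => ?_
  rw [Finset.sum_mul]
  refine Finset.sum_congr rfl fun j _ => ?_
  rw [vac_sq, gk]
  push_cast
  ring

lemma gauss_integrable (A B : Fin 5 → ℝ) :
    Integrable fun x : ℝ => (poly A).eval (x : ℂ) * (poly B).eval (x : ℂ) * (vac x * vac x) := by
  simp only [gauss_term]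
  exact integrable_finsetSum _ fun i _ => integrable_finsetSum _ fun j _ =>
    (gk_integrable 0 _).const_mul _

/-- the Gaussian bilinear form on polynomials -/
noncomputable def gf (A B : Fin 5 → ℝ) : ℝ := ∑ i : Fin 5, ∑ j : Fin 5, A i * B j * mr (i + j)

lemma gauss_int (A B : Fin 5 → ℝ) :
    ∫ x : ℝ, (poly A).eval (x : ℂ) * (poly B).eval (x : ℂ) * (vac x * vac x) =
      ((gf A B : ℝ) : ℂ) := by
  simp only [gauss_term]
  rw [integral_finsetSum _ fun i _ => integrable_finsetSum _ fun j _ =>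
    (gk_integrable 0 _).const_mul _]
  rw [gf, Complex.ofReal_sum]
  refine Finset.sum_congr rfl fun i _ => ?_
  rw [integral_finsetSum _ fun j _ => (gk_integrable 0 _).const_mul _, Complex.ofReal_sum]
  refine Finset.sum_congr rfl fun j _ => ?_
  rw [integral_const_mul]
  show _ * mom 0 (i + j) = _
  rw [mom_eq, mom_zero, m_zero]
  have e : Real.exp (-0 ^ 2) = 1 := by simp
  rw [e, mul_one]
  push_cast
  linear_combination (A i : ℂ) * B j * mr (i + j) * sqrtpi_mul'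

lemma inner_poly (A B : Fin 5 → ℝ) : ⟪Φ (poly A), Φ (poly B)⟫_ℂ = ((gf B A : ℝ) : ℂ) := by
  rw [inner_Φ, ← gauss_int]
  congr 1
  funext x
  rw [pv, pv, map_mul, poly_eval_conj, vac_conj]
  ring

/-! ### The Wigner function of the operators -/

lemma pv_mul (A B : Fin 5 → ℝ) (x p y : ℝ) :
    pv (poly A) (x + y) * conj (pv (poly B) (x - y)) * cexp (-2 * I * p * y) =
      (((√Real.pi)⁻¹ * Real.exp (-x ^ 2) : ℝ) : ℂ) *
        ((poly A).eval ((x : ℂ) + y) * (poly B).eval ((x : ℂ) - y) *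
          cexp (-(y : ℂ) ^ 2 - 2 * I * p * y)) := by
  rw [pv, pv, map_mul, poly_eval_conj, vac_conj]
  have e1 := vac_mul_vac (x + y) (x - y)
  have e2 : (((√Real.pi)⁻¹ * Real.exp (-((x + y) ^ 2 + (x - y) ^ 2) / 2) : ℝ) : ℂ) *
      cexp (-2 * I * p * y) = (((√Real.pi)⁻¹ * Real.exp (-x ^ 2) : ℝ) : ℂ) *
        cexp (-(y : ℂ) ^ 2 - 2 * I * p * y) := by
    have e3 : cexp (-(((x : ℂ) + y) ^ 2 + ((x : ℂ) - y) ^ 2) / 2) * cexp (-2 * I * p * y) =
        cexp (-(x : ℂ) ^ 2) * cexp (-(y : ℂ) ^ 2 - 2 * I * p * y) := by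
      rw [← Complex.exp_add, ← Complex.exp_add]
      congr 1
      ring
    push_cast
    linear_combination ((√Real.pi : ℝ) : ℂ)⁻¹ * e3
  push_cast at e1 e2 ⊢
  linear_combination (Polynomial.eval ((x : ℂ) + y) (poly A) *
    Polynomial.eval ((x : ℂ) - y) (poly B) * cexp (-2 * I * p * y)) * e1 +
    (Polynomial.eval ((x : ℂ) + y) (poly A) * Polynomial.eval ((x : ℂ) - y) (poly B)) * e2

lemma wig_integrable (A B : Fin 5 → ℝ) (x p : ℝ) :
    Integrable fun y : ℝ => (poly A).eval ((x : ℂ) + y) * (poly B).eval ((x : ℂ) - y) *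
          cexp (-(y : ℂ) ^ 2 - 2 * I * p * y) := by
  have h := integrable_poly ((poly A).comp (Polynomial.C (x : ℂ) + Polynomial.X) *
    (poly B).comp (Polynomial.C (x : ℂ) - Polynomial.X)) p
  simpa [Polynomial.eval_comp] using h

lemma sum_wig (M : Fin 4 → Fin 4 → ℝ) (x p : ℝ) (c : ℕ → ℂ)
    (hc : ∀ y : ℝ, ∑ a, ∑ b, (M a b : ℂ) * ((poly (cf a)).eval ((x : ℂ) + y) *
      (poly (cf b)).eval ((x : ℂ) - y)) = ∑ k ∈ Finset.range 9, c k * (y : ℂ) ^ k) :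
    ∑ a, ∑ b, (M a b : ℂ) * wig x p (U a) (U b) =
      (Real.exp (-x ^ 2) * Real.exp (-p ^ 2) : ℝ) * ∑ k ∈ Finset.range 9, c k * m p k := by
  have e1 : ∀ a b, (M a b : ℂ) * wig x p (U a) (U b) =
      ∫ y : ℝ, (((√Real.pi)⁻¹ * Real.exp (-x ^ 2) : ℝ) : ℂ) * ((M a b : ℂ) *
        ((poly (cf a)).eval ((x : ℂ) + y) * (poly (cf b)).eval ((x : ℂ) - y) *
          cexp (-(y : ℂ) ^ 2 - 2 * I * p * y))) := by
    intro a b
    rw [U, U, wig_Φ, wig, ← integral_const_mul]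
    congr 1
    funext y
    rw [pv_mul]
    ring
  have hi : ∀ a b, Integrable fun y : ℝ => (((√Real.pi)⁻¹ * Real.exp (-x ^ 2) : ℝ) : ℂ) *
      ((M a b : ℂ) * ((poly (cf a)).eval ((x : ℂ) + y) * (poly (cf b)).eval ((x : ℂ) - y) *
          cexp (-(y : ℂ) ^ 2 - 2 * I * p * y))) := fun a b =>
    ((wig_integrable (cf a) (cf b) x p).const_mul _).const_mul _
  simp only [e1]
  have e2 : ∑ a, ∑ b, (∫ y : ℝ, (((√Real.pi)⁻¹ * Real.exp (-x ^ 2) : ℝ) : ℂ) * ((M a b : ℂ) *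
        ((poly (cf a)).eval ((x : ℂ) + y) * (poly (cf b)).eval ((x : ℂ) - y) *
          cexp (-(y : ℂ) ^ 2 - 2 * I * p * y)))) =
      ∫ y : ℝ, ∑ a, ∑ b, (((√Real.pi)⁻¹ * Real.exp (-x ^ 2) : ℝ) : ℂ) * ((M a b : ℂ) *
        ((poly (cf a)).eval ((x : ℂ) + y) * (poly (cf b)).eval ((x : ℂ) - y) *
          cexp (-(y : ℂ) ^ 2 - 2 * I * p * y))) := by
    rw [integral_finsetSum _ fun a _ => integrable_finsetSum _ fun b _ => hi a b]
    refine Finset.sum_congr rfl fun a _ => ?_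
    rw [integral_finsetSum _ fun b _ => hi a b]
  rw [e2]
  have e3 : (fun y : ℝ => ∑ a, ∑ b, (((√Real.pi)⁻¹ * Real.exp (-x ^ 2) : ℝ) : ℂ) *
      ((M a b : ℂ) * ((poly (cf a)).eval ((x : ℂ) + y) * (poly (cf b)).eval ((x : ℂ) - y) *
          cexp (-(y : ℂ) ^ 2 - 2 * I * p * y)))) =
      fun y : ℝ => (((√Real.pi)⁻¹ * Real.exp (-x ^ 2) : ℝ) : ℂ) *
        ((∑ k ∈ Finset.range 9, c k * (y : ℂ) ^ k) * cexp (-(y : ℂ) ^ 2 - 2 * I * p * y)) := by
    funext y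
    rw [← hc y, Finset.sum_mul, Finset.mul_sum]
    refine Finset.sum_congr rfl fun a _ => ?_
    rw [Finset.sum_mul, Finset.mul_sum]
    refine Finset.sum_congr rfl fun b _ => ?_
    ring
  rw [e3, integral_const_mul, integral_sum_gk, mom_zero]
  push_cast
  linear_combination (cexp (-(x : ℂ) ^ 2) * (∑ k ∈ Finset.range 9, c k * m p k) *
    cexp (-(p : ℂ) ^ 2)) * sqrtpi_mul'

/-! ### The matrices -/

/-- the matrix of three times the beam-splitter state -/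
noncomputable def SM : Fin 4 → Fin 4 → ℝ :=
  ![![7 / 8, 0, -1 / 4, 0], ![0, 1 / 2, 0, 0], ![-1 / 4, 0, 3 / 8, 1 / 16], ![0, 0, 1 / 16, 1 / 64]]

/-- the matrix of the perturbation -/
noncomputable def XM : Fin 4 → Fin 4 → ℝ :=
  ![![3 / 4, 0, -1 / 2, 1 / 4], ![0, 0, 0, 0], ![-1 / 2, 0, 1 / 4, 1 / 8],
    ![1 / 4, 0, 1 / 8, 1 / 32]]

/-- the matrices of the states -/
noncomputable def MM (s r : ℝ) (a b : Fin 4) : ℝ := r * (SM a b + s * XM a b)

lemma MM_symm (s r : ℝ) (a b : Fin 4) : MM s r a b = MM s r b a := by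
  fin_cases a <;> fin_cases b <;> simp [MM, SM, XM]

lemma gf_cf (a b : Fin 4) : gf (cf a) (cf b) = (![![1, 0, 0, 0], ![0, 2, 0, 0], ![0, 0, 2, 0],
    ![0, 0, 0, 24]] : Fin 4 → Fin 4 → ℝ) a b := by
  fin_cases a <;> fin_cases b <;> simp [gf, cf, Fin.sum_univ_five, mr] <;> norm_num

lemma trace_MM (s r : ℝ) : ∑ c, ∑ d, (MM s r c d : ℂ) * ⟪U d, U c⟫_ℂ = ((r * (3 + 2 * s) : ℝ) : ℂ) := by
  simp only [U, inner_poly, gf_cf, ← Complex.ofReal_mul, ← Complex.ofReal_sum]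
  congr 1
  simp [Fin.sum_univ_four, MM, SM, XM]
  ring

/-- the coefficients for the Wigner function of the first matrix -/
noncomputable def cS (x : ℝ) : ℕ → ℂ
  | 0 => 97 / 64 + 5 / 8 * (x : ℂ) ^ 2 + 5 / 8 * (x : ℂ) ^ 4 - 1 / 2 * (x : ℂ) ^ 6 +
      1 / 4 * (x : ℂ) ^ 8
  | 2 => -27 / 8 - 9 / 4 * (x : ℂ) ^ 2 + 1 / 2 * (x : ℂ) ^ 4 - (x : ℂ) ^ 6
  | 4 => 5 / 8 + 1 / 2 * (x : ℂ) ^ 2 + 3 / 2 * (x : ℂ) ^ 4
  | 6 => -1 / 2 - (x : ℂ) ^ 2
  | 8 => 1 / 4
  | _ => 0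

/-- the coefficients for the Wigner function of the second matrix -/
noncomputable def cX (x : ℝ) : ℕ → ℂ
  | 0 => 97 / 32 - 27 / 4 * (x : ℂ) ^ 2 + 5 / 4 * (x : ℂ) ^ 4 - (x : ℂ) ^ 6 + 1 / 2 * (x : ℂ) ^ 8
  | 2 => -27 / 4 + 23 / 2 * (x : ℂ) ^ 2 + (x : ℂ) ^ 4 - 2 * (x : ℂ) ^ 6
  | 4 => 5 / 4 + (x : ℂ) ^ 2 + 3 * (x : ℂ) ^ 4
  | 6 => -1 - 2 * (x : ℂ) ^ 2
  | 8 => 1 / 2
  | _ => 0

lemma m_nil (p : ℝ) : m p 0 = 1 := by rw [m]

lemma m_two (p : ℝ) : m p 2 = 1 / 2 - (p : ℂ) ^ 2 := by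
  rw [m, m, m]
  push_cast
  linear_combination (p : ℂ) ^ 2 * I_sq

lemma m_three (p : ℝ) : m p 3 = I * ((p : ℂ) ^ 3 - 3 / 2 * p) := by
  rw [m, m_two, m]
  push_cast
  ring

lemma m_four (p : ℝ) : m p 4 = 3 / 4 - 3 * (p : ℂ) ^ 2 + (p : ℂ) ^ 4 := by
  rw [m, m_three, m_two]
  push_cast
  linear_combination (3 / 2 * (p : ℂ) ^ 2 - (p : ℂ) ^ 4) * I_sq

lemma m_five (p : ℝ) : m p 5 = I * (-(p : ℂ) ^ 5 + 5 * (p : ℂ) ^ 3 - 15 / 4 * p) := by
  rw [m, m_four, m_three]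
  push_cast
  ring

lemma m_six (p : ℝ) : m p 6 = 15 / 8 - 45 / 4 * (p : ℂ) ^ 2 + 15 / 2 * (p : ℂ) ^ 4 - (p : ℂ) ^ 6 := by
  rw [m, m_five, m_four]
  push_cast
  linear_combination ((p : ℂ) ^ 6 - 5 * (p : ℂ) ^ 4 + 15 / 4 * (p : ℂ) ^ 2) * I_sq

lemma m_seven (p : ℝ) : m p 7 =
    I * ((p : ℂ) ^ 7 - 21 / 2 * (p : ℂ) ^ 5 + 105 / 4 * (p : ℂ) ^ 3 - 105 / 8 * p) := by
  rw [m, m_six, m_five]
  push_cast
  ring

lemma m_eight (p : ℝ) : m p 8 =
    105 / 16 - 105 / 2 * (p : ℂ) ^ 2 + 105 / 2 * (p : ℂ) ^ 4 - 14 * (p : ℂ) ^ 6 + (p : ℂ) ^ 8 := by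
  rw [m, m_seven, m_six]
  push_cast
  linear_combination (-(p : ℂ) ^ 8 + 21 / 2 * (p : ℂ) ^ 6 - 105 / 4 * (p : ℂ) ^ 4 +
    105 / 8 * (p : ℂ) ^ 2) * I_sq

/-- real part of the polynomial `P` -/
noncomputable def Pre (x p : ℝ) : ℝ :=
  1 - 2 * (x ^ 2 + p ^ 2) + (x ^ 2 + p ^ 2) ^ 2 / 2 + x ^ 2 - p ^ 2

/-- imaginary part of the polynomial `P` -/
noncomputable def Pim (x p : ℝ) : ℝ := 2 * x * p

lemma sum_cS (x p : ℝ) : ∑ k ∈ Finset.range 9, cS x k * m p k =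
    ((Pre x p ^ 2 + Pim x p ^ 2 : ℝ) : ℂ) := by
  simp only [Finset.sum_range_succ, Finset.sum_range_zero, m_two, m_four, m_six, m_eight, cS,
    m_nil, Pre, Pim]
  push_cast
  ring

lemma sum_cX (x p : ℝ) : ∑ k ∈ Finset.range 9, cX x k * m p k =
    ((2 * (Pre x p ^ 2 - Pim x p ^ 2) : ℝ) : ℂ) := by
  simp only [Finset.sum_range_succ, Finset.sum_range_zero, m_two, m_four, m_six, m_eight, cX,
    m_nil, Pre, Pim]
  push_cast
  ring

lemma hcS (x y : ℝ) : ∑ a, ∑ b, (SM a b : ℂ) * ((poly (cf a)).eval ((x : ℂ) + y) *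
      (poly (cf b)).eval ((x : ℂ) - y)) = ∑ k ∈ Finset.range 9, cS x k * (y : ℂ) ^ k := by
  simp only [poly_eval, Fin.sum_univ_four, Fin.sum_univ_five, Finset.sum_range_succ,
    Finset.sum_range_zero, cS]
  simp [SM, cf]
  ring

lemma hcX (x y : ℝ) : ∑ a, ∑ b, (XM a b : ℂ) * ((poly (cf a)).eval ((x : ℂ) + y) *
      (poly (cf b)).eval ((x : ℂ) - y)) = ∑ k ∈ Finset.range 9, cX x k * (y : ℂ) ^ k := by
  simp only [poly_eval, Fin.sum_univ_four, Fin.sum_univ_five, Finset.sum_range_succ,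
    Finset.sum_range_zero, cX]
  simp [XM, cf]
  ring

/-- the Wigner functions of the operators -/
noncomputable def WW (s r x p : ℝ) : ℝ :=
  1 / Real.pi * (Real.exp (-x ^ 2) * Real.exp (-p ^ 2) *
    (r * ((Pre x p ^ 2 + Pim x p ^ 2) + s * (2 * (Pre x p ^ 2 - Pim x p ^ 2)))))

lemma isWigner_MM (s r : ℝ) : IsWigner (op U (MM s r)) (WW s r) := by
  intro ι b x p
  have h := op_wigner U (MM s r) b x p
  have e : ∑ c, ∑ d, (MM s r c d : ℂ) * wig x p (U c) (U d) =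
      (Real.exp (-x ^ 2) * Real.exp (-p ^ 2) : ℝ) *
        ∑ k ∈ Finset.range 9, ((r : ℂ) * (cS x k + s * cX x k)) * m p k := by
    apply sum_wig
    intro y
    have e1 : ∑ a, ∑ b, (MM s r a b : ℂ) * ((poly (cf a)).eval ((x : ℂ) + y) *
        (poly (cf b)).eval ((x : ℂ) - y)) =
        r * ((∑ a, ∑ b, (SM a b : ℂ) * ((poly (cf a)).eval ((x : ℂ) + y) *
          (poly (cf b)).eval ((x : ℂ) - y))) +
          s * ∑ a, ∑ b, (XM a b : ℂ) * ((poly (cf a)).eval ((x : ℂ) + y) *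
          (poly (cf b)).eval ((x : ℂ) - y))) := by
      simp only [Finset.mul_sum, ← Finset.sum_add_distrib]
      refine Finset.sum_congr rfl fun a _ => Finset.sum_congr rfl fun b _ => ?_
      rw [MM]
      push_cast
      ring
    rw [e1, hcS, hcX]
    simp only [Finset.mul_sum, ← Finset.sum_add_distrib]
    refine Finset.sum_congr rfl fun k _ => ?_
    ring
  have e2 : ∑ k ∈ Finset.range 9, ((r : ℂ) * (cS x k + s * cX x k)) * m p k =
      ((r * ((Pre x p ^ 2 + Pim x p ^ 2) + s * (2 * (Pre x p ^ 2 - Pim x p ^ 2))) : ℝ) : ℂ) := by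
    have e3 : ∑ k ∈ Finset.range 9, ((r : ℂ) * (cS x k + s * cX x k)) * m p k =
        r * ((∑ k ∈ Finset.range 9, cS x k * m p k) +
          s * ∑ k ∈ Finset.range 9, cX x k * m p k) := by
      simp only [Finset.mul_sum, ← Finset.sum_add_distrib]
      refine Finset.sum_congr rfl fun k _ => ?_
      ring
    rw [e3, sum_cS, sum_cX]
    push_cast
    ring
  rw [e, e2, ← Complex.ofReal_mul, ← Complex.ofReal_mul] at h
  exact h

lemma WW_nonneg {s r : ℝ} (hr : 0 ≤ r) (hs : |s| ≤ 1 / 2) (x p : ℝ) : 0 ≤ WW s r x p := by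
  unfold WW
  have h1 := (abs_le.mp hs).1
  have h2 := (abs_le.mp hs).2
  have h3 : 0 ≤ (Pre x p ^ 2 + Pim x p ^ 2) + s * (2 * (Pre x p ^ 2 - Pim x p ^ 2)) := by
    nlinarith [sq_nonneg (Pre x p), sq_nonneg (Pim x p)]
  have := Real.pi_pos
  positivity

lemma quad_plus (v : Fin 4 → ℝ) : 0 ≤ ∑ a, ∑ b, (SM a b + 1 / 32 * XM a b) * (v a * v b) := by
  have e : ∑ a, ∑ b, (SM a b + 1 / 32 * XM a b) * (v a * v b) =
      1 / 2 * v 1 ^ 2 + 17 / 16 * (v 3 / 8 + v 2 / 2 + v 0 / 17) ^ 2 +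
        15 / 128 * (v 2 - 38 / 15 * v 0) ^ 2 + (1947 / 2176 - 361 / 480) * v 0 ^ 2 := by
    simp [Fin.sum_univ_four, SM, XM]
    ring
  rw [e]
  positivity

lemma quad_minus (v : Fin 4 → ℝ) : 0 ≤ ∑ a, ∑ b, (SM a b + (-1 / 32) * XM a b) * (v a * v b) := by
  have e : ∑ a, ∑ b, (SM a b + (-1 / 32) * XM a b) * (v a * v b) =
      1 / 2 * v 1 ^ 2 + 15 / 16 * (v 3 / 8 + v 2 / 2 - v 0 / 15) ^ 2 +
        17 / 128 * (v 2 - 26 / 17 * v 0) ^ 2 + (109 / 128 - 1 / 240 - 169 / 544) * v 0 ^ 2 := by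
    simp [Fin.sum_univ_four, SM, XM]
    ring
  rw [e]
  have : (0 : ℝ) ≤ 109 / 128 - 1 / 240 - 169 / 544 := by norm_num
  positivity

lemma mem_Dplus {s r : ℝ} (hr : 0 < r) (hs : |s| ≤ 1 / 2) (ht : r * (3 + 2 * s) = 1)
    (hq : ∀ v : Fin 4 → ℝ, 0 ≤ ∑ a, ∑ b, (SM a b + s * XM a b) * (v a * v b)) :
    op U (MM s r) ∈ Dplus := by
  refine ⟨⟨op_positive U _ (MM_symm s r) fun v => ?_, fun ι b => ?_⟩, WW s r, isWigner_MM s r,
    fun x p => WW_nonneg hr.le hs x p⟩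
  · have e : ∑ a, ∑ b, MM s r a b * (v a * v b) =
        r * ∑ a, ∑ b, (SM a b + s * XM a b) * (v a * v b) := by
      simp only [Finset.mul_sum]
      refine Finset.sum_congr rfl fun a _ => Finset.sum_congr rfl fun b _ => ?_
      rw [MM]; ring
    rw [e]
    exact mul_nonneg hr.le (hq v)
  · have h := op_trace U (MM s r) b
    rw [trace_MM, ht, Complex.ofReal_one] at h
    exact h

/-- `ρ` is an extreme point of the convex set `𝒟₊`. -/
def IsExtremePoint (ρ : Op) : Prop :=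
  ρ ∈ Dplus ∧ ∀ ρ₁ ∈ Dplus, ∀ ρ₂ ∈ Dplus, ∀ t : ℝ, 0 < t → t < 1 → ρ = comb t ρ₁ ρ₂ → ρ₁ = ρ₂

/-- the state -/
noncomputable def σ₀ : H →L[ℂ] H := op U (MM 0 (1 / 3))

lemma σ₀_mem : σ₀ ∈ Dplus := by
  refine mem_Dplus (by norm_num) (by norm_num) (by norm_num) fun v => ?_
  have h1 := quad_plus v
  have h2 := quad_minus v
  have e : ∑ a, ∑ b, (SM a b + 0 * XM a b) * (v a * v b) =
      1 / 2 * ((∑ a, ∑ b, (SM a b + 1 / 32 * XM a b) * (v a * v b)) +
        ∑ a, ∑ b, (SM a b + (-1 / 32) * XM a b) * (v a * v b)) := by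
    simp only [Finset.mul_sum, ← Finset.sum_add_distrib]
    refine Finset.sum_congr rfl fun a _ => Finset.sum_congr rfl fun b _ => ?_
    ring
  rw [e]
  linarith

lemma σ₀_not_extreme : ¬ IsExtremePoint σ₀ := by
  rintro ⟨-, h⟩
  have h1 : op U (MM (1 / 32) (16 / 49)) ∈ Dplus :=
    mem_Dplus (by norm_num) (by norm_num [abs_of_pos]) (by norm_num) quad_plus
  have h2 : op U (MM (-1 / 32) (16 / 47)) ∈ Dplus :=
    mem_Dplus (by norm_num) (by rw [abs_le]; constructor <;> norm_num) (by norm_num) quad_minus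
  have h3 := h _ h1 _ h2 (49 / 96) (by norm_num) (by norm_num) (by
    unfold σ₀ op comb
    simp only [Finset.smul_sum, smul_smul, ← Finset.sum_add_distrib, ← add_smul]
    refine Finset.sum_congr rfl fun a _ => Finset.sum_congr rfl fun b _ => ?_
    congr 1
    simp only [MM]
    push_cast
    ring)
  have h4 := congrArg (fun T : H →L[ℂ] H => ⟪U 1, T (U 1)⟫_ℂ) h3
  simp only [inner_op, U, inner_poly, gf_cf, Fin.sum_univ_four] at h4
  simp [MM, SM, XM] at h4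
  norm_num at h4

/-! ### The beam splitter -/

/-- The output `U (ψ ⊗ φ)` of the balanced beam splitter `U = exp (π/4 (a† b - a b†))` in the
position representation: `a† b - a b† = x ∂_y - y ∂_x` generates the rotations, and `U` is the
rotation by `π/4`. -/
noncomputable def beamSplitter (ψ φ : ℝ → ℂ) (x y : ℝ) : ℂ :=
  ψ ((x - y) / √2) * φ ((x + y) / √2)

/-- `σ` is the partial trace over the second mode of the output of the beam splitter:
`σ = ∫ |Ψ(·, y)⟩⟨Ψ(·, y)| dy` with `Ψ = U (ψ ⊗ φ)`. -/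
def IsBeamSplitterState (ψ φ : ℝ → ℂ) (σ : Op) : Prop :=
  ∀ f g : H, ip f (ev σ g) = ∫ y : ℝ,
    ip f (toH fun x => beamSplitter ψ φ x y) * ip (toH fun x => beamSplitter ψ φ x y) g

/-- Fock-bounded wave functions: finite linear combinations of the Fock states. -/
def IsFockBounded (ψ : ℝ → ℂ) : Prop := ψ ∈ Submodule.span ℂ (Set.range fock)

lemma vac_hasDeriv (x : ℝ) : HasDerivAt vac (-(x : ℂ) * vac x) x := by
  have h1 : HasDerivAt (fun x : ℝ => (√(√Real.pi))⁻¹ * Real.exp (-x ^ 2 / 2))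
      ((√(√Real.pi))⁻¹ * (Real.exp (-x ^ 2 / 2) * (-x))) x := by
    have h2 : HasDerivAt (fun x : ℝ => -x ^ 2 / 2) (-x) x := by
      have := ((hasDerivAt_pow 2 x).neg).div_const 2
      refine this.congr_deriv ?_
      push_cast
      ring
    exact h2.exp.const_mul _
  refine h1.ofReal_comp.congr_deriv ?_
  unfold vac
  push_cast
  ring

lemma fock_zero : fock 0 = vac := rfl

lemma fock_one (x : ℝ) : fock 1 x = (2 / (√2 : ℝ) : ℂ) * x * vac x := by
  show create vac x / (√(((0 : ℕ) : ℝ) + 1) : ℝ) = _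
  rw [create, (vac_hasDeriv x).deriv]
  simp
  ring

lemma sqrt2_sq : ((√2 : ℝ) : ℂ) * ((√2 : ℝ) : ℂ) = 2 := by
  rw [← Complex.ofReal_mul, Real.mul_self_sqrt (by norm_num)]
  norm_num

lemma sqrt2_ne : ((√2 : ℝ) : ℂ) ≠ 0 := by
  intro h
  have := sqrt2_sq
  rw [h] at this
  norm_num at this

lemma fock_two (x : ℝ) : fock 2 x = (2 * (x : ℂ) ^ 2 - 1) / (√2 : ℝ) * vac x := by
  show create (fock 1) x / (√(((1 : ℕ) : ℝ) + 1) : ℝ) = _
  have h1 : fock 1 = fun x : ℝ => (2 / (√2 : ℝ) : ℂ) * x * vac x := funext fock_one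
  have h2 : HasDerivAt (fock 1) ((2 / (√2 : ℝ) : ℂ) * 1 * vac x +
      (2 / (√2 : ℝ) : ℂ) * x * (-(x : ℂ) * vac x)) x := by
    rw [h1]
    have h3 : HasDerivAt (fun x : ℝ => (x : ℂ)) 1 x := Complex.ofRealCLM.hasDerivAt
    exact (h3.const_mul _).mul (vac_hasDeriv x)
  rw [create, h2.deriv, h1]
  have e : (√(((1 : ℕ) : ℝ) + 1) : ℝ) = √2 := by norm_num
  rw [e]
  field_simp
  rw [show ((√2 : ℝ) : ℂ) ^ 2 = 2 by rw [pow_two, sqrt2_sq]]
  ring

/-- the first Fock-bounded state `|2⟩` -/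
noncomputable def psi (x : ℝ) : ℂ := fock 2 x

/-- the second Fock-bounded state `(|2⟩ + √2 |0⟩) / √3` -/
noncomputable def phi (x : ℝ) : ℂ := (fock 2 x + (√2 : ℝ) * fock 0 x) / (√3 : ℝ)

/-- the coefficients of the vectors in the output of the beam splitter -/
noncomputable def al : Fin 4 → Fin 5 → ℝ :=
  ![![-1 / 8, 0, -1 / 2, 0, 1 / 2], ![0, -1, 0, 0, 0], ![3 / 4, 0, -1 / 2, 0, 0],
    ![1 / 8, 0, 0, 0, 0]]

lemma gf_al (a b : Fin 4) : gf (al a) (al b) = SM a b := by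
  fin_cases a <;> fin_cases b <;> simp [gf, al, Fin.sum_univ_five, mr, SM] <;> norm_num

lemma sqrt3_sq : ((√3 : ℝ) : ℂ) * ((√3 : ℝ) : ℂ) = 3 := by
  rw [← Complex.ofReal_mul, Real.mul_self_sqrt (by norm_num)]
  norm_num

lemma sqrt3_ne : ((√3 : ℝ) : ℂ) ≠ 0 := by
  intro h
  have := sqrt3_sq
  rw [h] at this
  norm_num at this

/-- the coefficients -/
noncomputable def coef (a : Fin 4) (y : ℝ) : ℂ := (poly (al a)).eval (y : ℂ) * vac y / (√3 : ℝ)

lemma div_sqrt2_sq (x : ℝ) : (((x / √2 : ℝ)) : ℂ) ^ 2 = (x : ℂ) ^ 2 / 2 := by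
  rw [← Complex.ofReal_pow, div_pow, Real.sq_sqrt (by norm_num)]
  push_cast
  ring

lemma bs_eq (x y : ℝ) :
    beamSplitter psi phi x y = pv (∑ a, coef a y • poly (cf a)) x := by
  have h1 : vac ((x - y) / √2) * vac ((x + y) / √2) = vac x * vac y := by
    rw [vac_mul_vac, vac_mul_vac]
    congr 4
    rw [div_pow, div_pow, Real.sq_sqrt (by norm_num)]
    ring
  have h2 : pv (∑ a, coef a y • poly (cf a)) x =
      (∑ a, (poly (al a)).eval (y : ℂ) * (poly (cf a)).eval (x : ℂ)) * (vac x * vac y) /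
        (√3 : ℝ) := by
    rw [pv, Polynomial.eval_finsetSum, Finset.sum_mul, Finset.sum_mul, Finset.sum_div]
    refine Finset.sum_congr rfl fun a _ => ?_
    rw [Polynomial.eval_smul, coef, smul_eq_mul]
    ring
  have h3 : ∑ a, (poly (al a)).eval (y : ℂ) * (poly (cf a)).eval (x : ℂ) =
      1 / 2 * (((x : ℂ) - y) ^ 2 - 1) * (((x : ℂ) + y) ^ 2 + 1) := by
    simp only [poly_eval, Fin.sum_univ_four, Fin.sum_univ_five]
    simp [al, cf]
    ring
  rw [h2, h3, beamSplitter, psi, phi, fock_two, fock_two, fock_zero, div_sqrt2_sq, div_sqrt2_sq,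
    ← h1]
  have h7 : (((√2 : ℝ) : ℂ))⁻¹ = ((√2 : ℝ) : ℂ) / 2 := by
    rw [inv_eq_iff_eq_inv, inv_div, eq_div_iff sqrt2_ne, sqrt2_sq]
  push_cast
  rw [div_eq_mul_inv _ ((√2 : ℝ) : ℂ), div_eq_mul_inv _ ((√2 : ℝ) : ℂ), h7]
  linear_combination (1 / 4 * (((x : ℂ) - y) ^ 2 - 1) * (((x : ℂ) + y) ^ 2 + 1) *
    vac ((x - y) / √2) * vac ((x + y) / √2) / ((√3 : ℝ) : ℂ)) * sqrt2_sq

lemma toH_bs (y : ℝ) : toH (fun x => beamSplitter psi phi x y) = ∑ a, coef a y • U a := by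
  have h : (fun x => beamSplitter psi phi x y) = pv (∑ a, coef a y • poly (cf a)) :=
    funext fun x => bs_eq x y
  rw [h, toH_pv, map_sum]
  refine Finset.sum_congr rfl fun a _ => ?_
  rw [map_smul, U]

lemma coef_conj (a : Fin 4) (y : ℝ) : conj (coef a y) = coef a y := by
  rw [coef, map_div₀, map_mul, poly_eval_conj, vac_conj, Complex.conj_ofReal]

lemma coef_mul (a b : Fin 4) (y : ℝ) : coef a y * coef b y =
    1 / 3 * ((poly (al a)).eval (y : ℂ) * (poly (al b)).eval (y : ℂ) * (vac y * vac y)) := by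
  rw [coef, coef, div_mul_div_comm, sqrt3_sq]
  ring

lemma isBeamSplitterState : IsBeamSplitterState psi phi σ₀ := by
  intro f g
  show ⟪f, σ₀ g⟫_ℂ = ∫ y : ℝ,
    ⟪f, toH fun x => beamSplitter psi phi x y⟫_ℂ * ⟪toH fun x => beamSplitter psi phi x y, g⟫_ℂ
  have h1 : ∀ y : ℝ, ⟪f, toH fun x => beamSplitter psi phi x y⟫_ℂ *
      ⟪toH fun x => beamSplitter psi phi x y, g⟫_ℂ =
      ∑ a, ∑ b, (1 / 3 * (⟪f, U a⟫_ℂ * ⟪U b, g⟫_ℂ)) *
        ((poly (al a)).eval (y : ℂ) * (poly (al b)).eval (y : ℂ) * (vac y * vac y)) := by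
    intro y
    rw [toH_bs, inner_sum, sum_inner, Finset.sum_mul_sum]
    refine Finset.sum_congr rfl fun a _ => Finset.sum_congr rfl fun b _ => ?_
    rw [inner_smul_right, inner_smul_left, coef_conj]
    linear_combination (⟪f, U a⟫_ℂ * ⟪U b, g⟫_ℂ) * coef_mul a b y
  simp only [h1]
  rw [integral_finsetSum _ fun a _ => integrable_finsetSum _ fun b _ =>
    (gauss_integrable (al a) (al b)).const_mul _]
  rw [σ₀, inner_op]
  refine Finset.sum_congr rfl fun a _ => ?_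
  rw [integral_finsetSum _ fun b _ => (gauss_integrable (al a) (al b)).const_mul _]
  refine Finset.sum_congr rfl fun b _ => ?_
  rw [integral_const_mul, gauss_int, gf_al, MM]
  push_cast
  ring

lemma norm_int (A : Fin 5 → ℝ) (ψ : ℝ → ℂ) (h : ∀ x, ψ x = (poly A).eval (x : ℂ) * vac x) :
    ∫ x, ‖ψ x‖ ^ 2 = gf A A := by
  apply Complex.ofReal_injective
  rw [← gauss_int, ← integral_complex_ofReal]
  congr 1
  funext x
  rw [h x, Complex.ofReal_pow, ← Complex.mul_conj', map_mul, poly_eval_conj, vac_conj]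
  ring

lemma poly_eval_two (a b : ℝ) (x : ℂ) : (poly ![a, 0, b, 0, 0]).eval x = a + b * x ^ 2 := by
  simp [poly_eval, Fin.sum_univ_five]

lemma gf_two (a b : ℝ) :
    gf ![a, 0, b, 0, 0] ![a, 0, b, 0, 0] = a ^ 2 + a * b + 3 / 4 * b ^ 2 := by
  simp [gf, Fin.sum_univ_five, mr]
  ring

lemma psi_norm : ∫ x, ‖psi x‖ ^ 2 = 1 := by
  have h2 : √2 ^ 2 = 2 := Real.sq_sqrt (by norm_num)
  have h0 : √2 ≠ 0 := by positivity
  rw [norm_int ![-1 / √2, 0, 2 / √2, 0, 0] psi, gf_two]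
  · field_simp
    rw [h2]
    norm_num
  · intro x
    rw [psi, fock_two, poly_eval_two]
    push_cast
    ring

lemma phi_norm : ∫ x, ‖phi x‖ ^ 2 = 1 := by
  have h2 : √2 ^ 2 = 2 := Real.sq_sqrt (by norm_num)
  have h3 : √3 ^ 2 = 3 := Real.sq_sqrt (by norm_num)
  have h0 : √2 ≠ 0 := by positivity
  have h1 : √3 ≠ 0 := by positivity
  rw [norm_int ![1 / (√2 * √3), 0, 2 / (√2 * √3), 0, 0] phi, gf_two]
  · field_simp
    rw [h2, h3]
    norm_num
  · intro x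
    rw [phi, fock_two, fock_zero, poly_eval_two]
    push_cast
    have h7 : (((√2 : ℝ) : ℂ))⁻¹ = ((√2 : ℝ) : ℂ) / 2 := by
      rw [inv_eq_iff_eq_inv, inv_div, eq_div_iff sqrt2_ne, sqrt2_sq]
    have h8 := sqrt2_ne
    have h9 := sqrt3_ne
    have h10 : ((√2 : ℝ) : ℂ) ^ 2 = 2 := by rw [pow_two, sqrt2_sq]
    field_simp
    rw [h10]
    ring

lemma fock_mem (n : ℕ) : fock n ∈ Submodule.span ℂ (Set.range fock) :=
  Submodule.subset_span ⟨n, rfl⟩

/-- There are Fock-bounded pure states `ψ`, `φ` whose beam-splitter state `σ` (the unique operator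
which is the partial trace of the output of the balanced beam splitter) is a Wigner-positive state
that is not an extreme point of the convex set `𝒟₊` of the Wigner-positive states. -/
theorem result : ∃ ψ φ : ℝ → ℂ, IsFockBounded ψ ∧ IsFockBounded φ ∧
    ∫ x, ‖ψ x‖ ^ 2 = 1 ∧ ∫ x, ‖φ x‖ ^ 2 = 1 ∧
      ∃ σ : Op, (∀ τ : Op, IsBeamSplitterState ψ φ τ ↔ τ = σ) ∧ σ ∈ Dplus ∧
        ¬ IsExtremePoint σ := by
  refine ⟨psi, phi, ?_, ?_, psi_norm, phi_norm, σ₀, ?_, σ₀_mem, σ₀_not_extreme⟩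
  · exact fock_mem 2
  · have e : phi = ((√3 : ℝ) : ℂ)⁻¹ • (fock 2 + ((√2 : ℝ) : ℂ) • fock 0) := by
      funext x
      simp only [phi, Pi.smul_apply, Pi.add_apply, smul_eq_mul]
      ring
    unfold IsFockBounded
    rw [e]
    exact Submodule.smul_mem _ _ (Submodule.add_mem _ (fock_mem 2)
      (Submodule.smul_mem _ _ (fock_mem 0)))
  · intro τ
    constructor
    · intro h
      apply ContinuousLinearMap.ext
      intro g
      refine ext_inner_left ℂ fun f => ?_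
      exact (h f g).trans (isBeamSplitterState f g).symm
    · rintro rfl
      exact isBeamSplitterState

end Pool.Agent.Results.MP_bdb089_mp.NotExtreme
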